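import Pool.Agent.Helper4.TL.StD

/-!
# Project TL, module Rel: the relations between the two plane functions of a twisted symbol
-/

set_option autoImplicit false

namespace Pool.Agent.Helper51.TL

open Pool.Agent.Helper4.TL
open Pool.Agent.Helper14.CV (Homog EqC act Tl StFar StFex)
open Pool.Agent.Helper14.W5 (e5 tr5 rY5 edge5)

/-- The sign of the vector does not matter. -/
private lemma rel_neg {R : Type} {G : ℤ → ℤ → R} (hG : Homog G) (X Y u1 u2 : ℤ)
    (hu : u1 ≠ 0 ∨ u2 ≠ 0) :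
    G (-u1 + 5 ^ 0 * X * (-u2)) (5 * Y * (-u1) + (1 + 5 ^ (0 + 1) * X * Y) * (-u2)) =
      G (u1 + 5 ^ 0 * X * u2) (5 * Y * u1 + (1 + 5 ^ (0 + 1) * X * Y) * u2) := by
  have hne : (1 * u1 + X * u2 ≠ 0 ∨ (5 * Y) * u1 + (1 + 5 * X * Y) * u2 ≠ 0) :=
    Pool.Agent.Helper14.CV.ne_zero_of_det (a := 1) (b := X) (c := 5 * Y) (d := 1 + 5 * X * Y)
      (by ring_nf; norm_num) hu
  have h := hG (-1) (u1 + 5 ^ 0 * X * u2) (5 * Y * u1 + (1 + 5 ^ (0 + 1) * X * Y) * u2)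
    (by norm_num) (by
      rcases hne with h | h
      · left; intro h'; apply h; rw [← h']; ring
      · right; intro h'; apply h; rw [← h']; ring)
  rw [← h]
  congr 1 <;> ring

/-- REL: the plane functions of a twisted symbol satisfy the relations. -/
theorem hRel (ht : TTre) : TRel := by
  intro R _ r s G hG
  have k0 : (pfE G 0 : ZMod (5 ^ r) → ZMod (5 ^ s) → R) = edgeE 0 1 0 0 1 G := by
    funext x y; rfl
  have k1 : (pfE G 1 : ZMod (5 ^ r) → ZMod (5 ^ s) → R) = edgeE 0 1 2 0 1 G := by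
    funext x y; rfl
  refine ⟨fun x y => ?_, fun x y => ?_⟩
  · have h0 := ht R _ r s G hG 2 (-1) 1 (-2) 1 2 0 1 (by norm_num) (by simp) (by simp) x y
    have hn := rel_neg hG.1 (x.val : ℤ) (rY5 0 x y) 1 2 (by simp)
    norm_num at h0
    rw [show eps 2 (-1) 5 (-2) = -1 by decide, neg_smul, one_smul] at h0
    show (pfE G 1 : ZMod (5 ^ r) → ZMod (5 ^ s) → R) x y - tr5 2 (-1) 1 (-2) (pfE G 1) x y = 0
    have h0' : tr5 2 (-1) 1 (-2) (edgeE 0 1 2 0 1 G) x y = - edgeE 0 0 1 (-1) (-2) G x y := by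
      rw [h0, neg_neg]
    rw [k1, h0']
    unfold edgeE edge5
    rw [hn, ← smul_neg, ← smul_sub]
    have hz : ∀ A B : R, A - B - -(B - A) = 0 := fun A B => by abel
    rw [hz, smul_zero]
  · have h0 := ht R _ r s G hG 1 1 0 1 1 0 0 1 (by norm_num) (by simp) (by simp) x y
    have h1 := ht R _ r s G hG 3 (-2) 1 (-3) 1 0 0 1 (by norm_num) (by simp) (by simp) x y
    have h2 := ht R _ r s G hG 3 1 1 2 1 0 0 1 (by norm_num) (by simp) (by simp) x y
    have h3 := ht R _ r s G hG 3 (-2) 1 (-3) 1 2 0 1 (by norm_num) (by simp) (by simp) x y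
    have hn := rel_neg hG.1 (x.val : ℤ) (rY5 0 x y) 1 1 (by simp)
    norm_num at h0 h1 h2 h3
    rw [show eps 1 1 0 1 = -1 by decide, neg_smul, one_smul] at h0
    rw [show eps 3 (-2) 5 (-3) = -1 by decide, neg_smul, one_smul] at h1 h3
    rw [show eps 3 1 5 2 = 1 by decide, one_smul] at h2
    have h0' : tr5 1 1 0 1 (edgeE 0 1 0 0 1 G) x y = - edgeE 0 1 0 1 1 G x y := by
      rw [h0, neg_neg]
    have h1' : tr5 3 (-2) 1 (-3) (edgeE 0 1 0 0 1 G) x y = - edgeE 0 3 5 (-2) (-3) G x y := by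
      rw [h1, neg_neg]
    have h3' : tr5 3 (-2) 1 (-3) (edgeE 0 1 2 0 1 G) x y = - edgeE 0 (-1) (-1) (-2) (-3) G x y := by
      rw [h3, neg_neg]
    show (pfE G 0 : ZMod (5 ^ r) → ZMod (5 ^ s) → R) x y + tr5 1 1 0 1 (pfE G 0) x y -
      (pfE G 1 : ZMod (5 ^ r) → ZMod (5 ^ s) → R) x y -
      (tr5 3 (-2) 1 (-3) (pfE G 0) x y + tr5 3 1 1 2 (pfE G 0) x y -
        tr5 3 (-2) 1 (-3) (pfE G 1) x y) = 0
    rw [k0, k1, h0', h1', h3', ← h2]
    unfold edgeE edge5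
    rw [hn]
    simp only [smul_sub]
    abel

end Pool.Agent.Helper51.TL
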